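import Pool.Agent.Lib_helper92.UNI.One
import Pool.Agent.Lib_helper33.PIN.P.B9

/-! # The three kernels at once modulo `q`, for infinite groups -/

set_option autoImplicit false

namespace Pool.Agent.UK

open scoped commutatorElement
open Pool.Agent.FQ Pool.Agent.PIN Pool.Agent.UNI

variable {P Q : Type} [Group P] [Group Q]

/-- The onto case. -/
theorem three_onto {N : ℕ} (hQ : Red Q N) {g : ℕ} (c : Fin g → Fin 3)
    (hc : ∀ e, N ≤ Nat.card {h // c h = e})
    (f : Fin 3 → FreeGroup (Fin g ⊕ Fin g) →* FreeGroup (Fin g)) (hf : TR.IsTrisection c f)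
    (q : FreeGroup (Fin g ⊕ Fin g) →* Q) (hq : Function.Surjective q) :
    ∃ φ : FreeGroup (Fin g ⊕ Fin g) ≃* FreeGroup (Fin g ⊕ Fin g), φ (TR.rho g) = TR.rho g ∧
      ∀ i, ((TR.std c i).ker.map φ.toMonoidHom).map q = (f i).ker.map q := by
  obtain ⟨T, hT, hw, he, hn, -⟩ := b9_tuple hf ∅ Set.finite_empty (by simp)
  obtain ⟨n, hTn, hst⟩ := b7_stable T he hw
  have hcN : ∀ e, N ≤ (List.ofFn c).count e := fun e => by
    rw [b6_count]
    exact hc e
  have hg : 2 * N ≤ g := by
    have h3 := b6_len (List.ofFn c)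
    rw [List.length_ofFn] at h3
    have h5 := hcN 0
    have h6 := hcN 1
    have h7 := hcN 2
    omega
  -- the types of the trivial handles
  obtain ⟨l', hl'⟩ := b6_list fun _ => n
  have hTl : ∀ e, (T.map Prod.fst).count e ≤ n := fun e =>
    (List.count_le_length).trans (by rw [List.length_map]; exact hTn)
  obtain ⟨l, hl⟩ := b6_list fun e => (List.ofFn c).count e + l'.count e - (T.map Prod.fst).count e
  have hle : ∀ e, (T.map Prod.fst).count e + l.count e = (List.ofFn c).count e + l'.count e := by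
    intro e
    rw [hl e]
    have h2 := hTl e
    have h3 := hl' e
    omega
  have hlen : T.length + l.length = g + l'.length := by
    have h1 := b6_len (T.map Prod.fst)
    have h2 := b6_len l
    have h3 := b6_len (List.ofFn c)
    have h4 := b6_len l'
    rw [List.length_map] at h1
    rw [List.length_ofFn] at h3
    have h5 := hle 0
    have h6 := hle 1
    have h7 := hle 2
    omega
  have hns : n ≤ l'.length := by
    have h4 := b6_len l'
    have h5 := hl' 0
    omega
  have horb := hst l'.length l.length hns hlen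
  -- over `Q`
  have h1 : FM.Orb (FM.tup q ++ List.replicate l'.length (1, 1)) (ft (mp q T ++ tt l)) := by
    have h := orbF_mp q horb
    have ha : ∀ A B : List (FreeGroup (Fin g ⊕ Fin g) × FreeGroup (Fin g ⊕ Fin g)),
        FM.mp q (A ++ B) = FM.mp q A ++ FM.mp q B := fun A B => List.map_append
    have hr : ∀ k : ℕ, FM.mp q (List.replicate k (1, 1)) = List.replicate k (1, 1) := by
      intro k
      unfold FM.mp
      rw [List.map_replicate, map_one]
    have ht : FM.mp q (FM.tup (MonoidHom.id (FreeGroup (Fin g ⊕ Fin g)))) = FM.tup q := by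
      unfold FM.mp FM.tup
      rw [List.map_ofFn]
      rfl
    rw [ha, ha, hr, hr, ht, ← c6_ft_mp, ← b7_tt l, ← b7_app] at h
    exact h
  obtain ⟨S, hS⟩ := red_all2 hQ l' (mp q T ++ tt l) fun e _ => by
    rw [List.map_append, List.count_append, c6_fst_tt, a4_fst_mp, hle e]
    have := hcN e
    omega
  have hSc : ∀ e, (S.map Prod.fst).count e = (List.ofFn c).count e := by
    intro e
    have h := o3_count hS e
    rw [List.map_append, List.count_append, c6_fst_tt, a4_fst_mp, hle e, List.map_append,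
      List.count_append, c6_fst_tt] at h
    omega
  have h2 : FM.Orb (FM.tup q ++ List.replicate l'.length (1, 1))
      (ft S ++ List.replicate l'.length (1, 1)) := by
    have h := fm_orb (o3_orb hS)
    rw [b7_app S, b7_tt] at h
    exact FM.orb_trans h1 h
  have h3 : FM.Orb (FM.tup q) (ft S) := by
    refine fm_canc hQ _ _ ?_ _ h2
    rw [FM.a3_length]
    exact hg
  obtain ⟨T', hT', hex⟩ := ex_perm S (List.ofFn c) (List.perm_iff_count.2 hSc)
  obtain ⟨q', hq'⟩ := exists_tup c hT'
  have h4 : FM.Orb (FM.tup q) (FM.tup q') := by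
    rw [← b7_tup c q', ← hq']
    exact FM.orb_trans h3 (ex_orbF hex)
  obtain ⟨m, hm⟩ := FM.nm_orb h4
  obtain ⟨φ, p1, p2⟩ := FM.realize_nm q m
  rw [hm] at p2
  have p3 := FM.tup_inj p2
  have hqs : Function.Surjective q' := by
    rw [← p3]
    exact hq.comp φ.surjective
  refine ⟨φ, p1, fun i => ?_⟩
  have h5 : nn i S = nn i (mp q T) := by
    rw [← nn_tt i S l', ← o3_nn hS i, nn_tt]
  rw [Subgroup.map_map, p3, ← nn_tup c q' hqs i, ← hq', ← ex_nn hex i, h5, nn_mp q hq, hn]

/-- The three kernels at once modulo `q`. -/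
theorem three_main {H : Type} [Group H] {N : ℕ} (hH : Red H N) {g : ℕ} (c : Fin g → Fin 3)
    (hc : ∀ e, N ≤ Nat.card {h // c h = e})
    (f : Fin 3 → FreeGroup (Fin g ⊕ Fin g) →* FreeGroup (Fin g)) (hf : TR.IsTrisection c f)
    (q : FreeGroup (Fin g ⊕ Fin g) →* H) :
    ∃ φ : FreeGroup (Fin g ⊕ Fin g) ≃* FreeGroup (Fin g ⊕ Fin g), φ (TR.rho g) = TR.rho g ∧
      ∀ i, ((TR.std c i).ker.map φ.toMonoidHom).map q = (f i).ker.map q := by
  obtain ⟨φ, h1, h2⟩ := three_onto (red_range hH q.range.subtype Subtype.val_injective) c hc f hf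
    q.rangeRestrict q.rangeRestrict_surjective
  exact ⟨φ, h1, fun i => c7_range q (h2 i)⟩

end Pool.Agent.UK
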